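import Mathlib

set_option autoImplicit false

open Filter Topology Set Metric

namespace Pool.Agent.R231.SP

/-- the set of the `a > 0` with `λ x² + y² - a x y² ≥ 0` on the quarter disc -/
def Sa (l : ℝ) : Set ℝ := {a : ℝ | 0 < a ∧
  ∀ x y : ℝ, 0 ≤ x → 0 ≤ y → x ^ 2 + y ^ 2 ≤ 1 → 0 ≤ l * x ^ 2 + y ^ 2 - a * x * y ^ 2}

/-- the constant `a₀ = max (Sa l)` -/
noncomputable def a0 (l : ℝ) : ℝ := sSup (Sa l)

lemma one_mem_Sa {l : ℝ} (hl : 1 ≤ l) : (1 : ℝ) ∈ Sa l := by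
  refine ⟨one_pos, fun x y hx hy h => ?_⟩
  have hx1 : x ≤ 1 := by nlinarith
  have : x * y ^ 2 ≤ y ^ 2 := by nlinarith [sq_nonneg y]
  nlinarith [sq_nonneg x]

lemma bddAbove_Sa (l : ℝ) : BddAbove (Sa l) := by
  refine ⟨(2 * |l| + 6) / 3, ?_⟩
  rintro a ⟨_, ha⟩
  have h3 : (0 : ℝ) ≤ 3 / 4 := by norm_num
  have h := ha (1 / 2) (Real.sqrt (3 / 4)) (by norm_num) (Real.sqrt_nonneg _)
    (by rw [Real.sq_sqrt h3]; norm_num)
  rw [Real.sq_sqrt h3] at h
  have := le_abs_self l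
  linarith

lemma a0_isGreatest {l : ℝ} (hl : 1 ≤ l) : IsGreatest (Sa l) (a0 l) := by
  have h1 : 1 ≤ a0 l := le_csSup (bddAbove_Sa l) (one_mem_Sa hl)
  refine ⟨⟨by linarith, fun x y hx hy h => ?_⟩, fun a ha => le_csSup (bddAbove_Sa l) ha⟩
  rcases eq_or_lt_of_le (mul_nonneg hx (sq_nonneg y)) with h0 | h0
  · have : a0 l * x * y ^ 2 = 0 := by rw [mul_assoc, ← h0, mul_zero]
    nlinarith [sq_nonneg x, sq_nonneg y]
  · have h2 : a0 l ≤ (l * x ^ 2 + y ^ 2) / (x * y ^ 2) := by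
      apply csSup_le ⟨1, one_mem_Sa hl⟩
      rintro a ⟨_, ha⟩
      rw [le_div_iff₀ h0]
      have := ha x y hx hy h
      linarith
    rw [le_div_iff₀ h0] at h2
    linarith

lemma contact {l a : ℝ} (hl : 1 ≤ l) (ha : IsGreatest (Sa l) a) :
    ∃ s : ℝ, 0 < s ∧ s < 1 ∧ a * s * (1 + s ^ 2) = 2 ∧
      l * s ^ 2 + (1 - s ^ 2) - a * s * (1 - s ^ 2) = 0 := by
  set e : ℝ → ℝ := fun x => l * x ^ 2 + (1 - x ^ 2) - a * x * (1 - x ^ 2) with he
  have hec : Continuous e := by fun_prop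
  obtain ⟨s, hs, hmin⟩ := isCompact_Icc.exists_isMinOn (nonempty_Icc.2 (zero_le_one (α := ℝ)))
    hec.continuousOn
  have hmin' : ∀ x ∈ Icc (0 : ℝ) 1, e s ≤ e x := fun x hx => hmin hx
  have hes0 : 0 ≤ e s := by
    have h1 : 0 ≤ 1 - s ^ 2 := by nlinarith [hs.1, hs.2]
    have := ha.1.2 s (Real.sqrt (1 - s ^ 2)) hs.1 (Real.sqrt_nonneg _)
      (by rw [Real.sq_sqrt h1]; linarith)
    rwa [Real.sq_sqrt h1] at this
  have hes : e s = 0 := by
    by_contra hne
    have hpos : 0 < e s := lt_of_le_of_ne hes0 (Ne.symm hne)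
    have hmem : a + e s ∈ Sa l := by
      refine ⟨by linarith [ha.1.1], fun x y hx hy hxy => ?_⟩
      have hx1 : x ≤ 1 := by nlinarith
      have h2 := hmin' x ⟨hx, hx1⟩
      have hW : 0 ≤ 1 - x ^ 2 := by nlinarith
      rcases eq_or_lt_of_le hW with hW0 | hW0
      · have hy0 : y ^ 2 = 0 := by nlinarith [sq_nonneg y]
        rw [hy0]
        nlinarith [sq_nonneg x]
      · have h3 : (1 - x ^ 2) * (l * x ^ 2 + y ^ 2 - (a + e s) * x * y ^ 2) =
            (1 - x ^ 2 - y ^ 2) * (l * x ^ 2) + y ^ 2 * (e x - e s * (x * (1 - x ^ 2))) := by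
          simp only [he]; ring
        have h4 : 0 ≤ e x - e s * (x * (1 - x ^ 2)) := by
          have : x * (1 - x ^ 2) ≤ 1 := by nlinarith [sq_nonneg x]
          have : e s * (x * (1 - x ^ 2)) ≤ e s * 1 := mul_le_mul_of_nonneg_left this hpos.le
          linarith
        have h5 : 0 ≤ (1 - x ^ 2) * (l * x ^ 2 + y ^ 2 - (a + e s) * x * y ^ 2) := by
          rw [h3]
          have h6 : 0 ≤ l * x ^ 2 := by nlinarith [sq_nonneg x]
          have h7 : 0 ≤ 1 - x ^ 2 - y ^ 2 := by linarith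
          exact add_nonneg (mul_nonneg h7 h6) (mul_nonneg (sq_nonneg y) h4)
        exact nonneg_of_mul_nonneg_right h5 hW0
    have := ha.2 hmem
    linarith
  have hs0 : 0 < s := by
    rcases eq_or_lt_of_le hs.1 with h | h
    · exfalso
      rw [← h] at hes
      simp [he] at hes
    · exact h
  have hs1 : s < 1 := by
    rcases eq_or_lt_of_le hs.2 with h | h
    · exfalso
      rw [h] at hes
      simp [he] at hes
      linarith
    · exact h
  have hlm : IsLocalMin e s := by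
    filter_upwards [Icc_mem_nhds hs0 hs1] with x hx using hmin' x hx
  have hder : HasDerivAt e (l * (2 * s) - 2 * s - (a * (1 - s ^ 2) + a * s * (-(2 * s)))) s := by
    have h1 : HasDerivAt (fun x : ℝ => x ^ 2) (2 * s) s := by
      simpa using hasDerivAt_pow 2 s
    have h2 : HasDerivAt (fun x : ℝ => a * x) a s := by
      simpa using (hasDerivAt_id s).const_mul a
    have h3 := ((h1.const_mul l).add (h1.const_sub 1)).sub (h2.mul (h1.const_sub 1))
    have h4 : HasDerivAt e _ s := h3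
    refine h4.congr_deriv ?_
    ring
  have hd0 := hlm.hasDerivAt_eq_zero hder
  refine ⟨s, hs0, hs1, ?_, hes⟩
  have hes' : l * s ^ 2 + (1 - s ^ 2) - a * s * (1 - s ^ 2) = 0 := hes
  linear_combination s * hd0 - 2 * hes'

/-- the key inequality `|q|² ≤ 4 E` in real terms -/
lemma key_ineq {l a s : ℝ} (hl : 1 ≤ l) (hs0 : 0 < s) (hs1 : s < 1) (h1 : a * s * (1 + s ^ 2) = 2)
    (h2 : l * s ^ 2 + (1 - s ^ 2) - a * s * (1 - s ^ 2) = 0) {x Y : ℝ} (hx : 0 ≤ x) (hY : 0 ≤ Y)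
    (hxY : x ^ 2 + Y < 1) :
    (s * Y - (1 - s ^ 2) * x) ^ 2 ≤ 4 * (l * x ^ 2 + Y - a * x * Y) ∧
      (0 < x ∨ 0 < Y → 0 < l * x ^ 2 + Y - a * x * Y) := by
  have hx1 : x < 1 := by nlinarith
  have hW : 0 < 1 - x ^ 2 := by nlinarith
  set W := 1 - x ^ 2 with hWd
  have ha : 0 < a := by
    by_contra h
    have : a * s * (1 + s ^ 2) ≤ 0 :=
      mul_nonpos_of_nonpos_of_nonneg (mul_nonpos_of_nonpos_of_nonneg (not_lt.1 h) hs0.le)
        (by positivity)
    linarith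
  -- `e(x) = (x - s)² (a x + 1/s²)`
  have he : s ^ 2 * (l * x ^ 2 + W - a * x * W) = (x - s) ^ 2 * (a * x * s ^ 2 + 1) := by
    rw [hWd]
    linear_combination (x ^ 2) * h2 + (x^2 - s * x) * h1
  have he2 : (x - s) ^ 2 ≤ l * x ^ 2 + W - a * x * W := by
    have h3 : s ^ 2 * (x - s) ^ 2 ≤ s ^ 2 * (l * x ^ 2 + W - a * x * W) := by
      rw [he]
      have : s ^ 2 ≤ a * x * s ^ 2 + 1 := by
        have : 0 ≤ a * x * s ^ 2 := by positivity
        nlinarith
      calc s ^ 2 * (x - s) ^ 2 ≤ (a * x * s ^ 2 + 1) * (x - s) ^ 2 := by gcongr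
        _ = _ := by ring
    exact le_of_mul_le_mul_left h3 (by positivity)
  have hlin : W * (l * x ^ 2 + Y - a * x * Y) =
      (W - Y) * (l * x ^ 2) + Y * (l * x ^ 2 + W - a * x * W) := by ring
  have hWY : 0 < W - Y := by rw [hWd]; linarith
  have hlx : x ^ 2 ≤ l * x ^ 2 := by nlinarith [sq_nonneg x]
  constructor
  · have hconv : W * (s * Y - (1 - s ^ 2) * x) ^ 2 ≤
        (W - Y) * ((1 - s ^ 2) * x) ^ 2 + Y * (s * W - (1 - s ^ 2) * x) ^ 2 := by
      have : 0 ≤ s ^ 2 * Y * W * (W - Y) := by positivity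
      nlinarith
    have h3 : ((1 - s ^ 2) * x) ^ 2 ≤ 4 * (l * x ^ 2) := by
      have : (1 - s ^ 2) ^ 2 ≤ 1 := by
        have h0 : 0 ≤ 1 - s ^ 2 := by nlinarith
        have h1 : 1 - s ^ 2 ≤ 1 := by nlinarith
        exact pow_le_one₀ h0 h1
      calc ((1 - s ^ 2) * x) ^ 2 = (1 - s ^ 2) ^ 2 * x ^ 2 := by ring
        _ ≤ 1 * x ^ 2 := by gcongr
        _ ≤ 4 * (l * x ^ 2) := by nlinarith [sq_nonneg x]
    have h4 : (s * W - (1 - s ^ 2) * x) ^ 2 ≤ 4 * (l * x ^ 2 + W - a * x * W) := by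
      have e1 : s * W - (1 - s ^ 2) * x = (s - x) * (1 + s * x) := by rw [hWd]; ring
      rw [e1, mul_pow]
      have h5 : (1 + s * x) ^ 2 ≤ 4 := by
        have : s * x ≤ 1 := by nlinarith
        have : 0 ≤ s * x := by positivity
        nlinarith
      calc (s - x) ^ 2 * (1 + s * x) ^ 2 ≤ (s - x) ^ 2 * 4 := by gcongr
        _ = 4 * (x - s) ^ 2 := by ring
        _ ≤ _ := by linarith
    have h5 : W * (s * Y - (1 - s ^ 2) * x) ^ 2 ≤ W * (4 * (l * x ^ 2 + Y - a * x * Y)) := by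
      calc W * (s * Y - (1 - s ^ 2) * x) ^ 2 ≤
          (W - Y) * ((1 - s ^ 2) * x) ^ 2 + Y * (s * W - (1 - s ^ 2) * x) ^ 2 := hconv
        _ ≤ (W - Y) * (4 * (l * x ^ 2)) + Y * (4 * (l * x ^ 2 + W - a * x * W)) := by gcongr
        _ = _ := by ring
    exact le_of_mul_le_mul_left h5 hW
  · intro hpos
    have h6 : 0 < W * (l * x ^ 2 + Y - a * x * Y) := by
      rw [hlin]
      rcases eq_or_lt_of_le hx with h0 | h0
      · have hY0 : 0 < Y := by
          rcases hpos with h | h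
          · exact absurd h0 h.ne
          · exact h
        have : W = 1 := by rw [hWd, ← h0]; ring
        rw [← h0, this]
        nlinarith
      · have h7 : 0 ≤ Y * (l * x ^ 2 + W - a * x * W) :=
          mul_nonneg hY ((sq_nonneg _).trans he2)
        have h8 : 0 < (W - Y) * (l * x ^ 2) := mul_pos hWY (by positivity)
        linarith
    exact (pos_iff_pos_of_mul_pos h6).1 hW

end Pool.Agent.R231.SP
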