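import Mathlib
import Pool.Agent.R231.SP.Ineq

set_option autoImplicit false

open Filter Topology Set Metric MeasureTheory

namespace Pool.Agent.R231.SP

/-- the open Euclidean unit ball of `ℂ²` -/
def B2 : Set (ℂ × ℂ) := {z | ‖z.1‖ ^ 2 + ‖z.2‖ ^ 2 < 1}

/-- the inner product `⟨z, w⟩ = z₁ w̄₁ + z₂ w̄₂` -/
noncomputable def ip (z w : ℂ × ℂ) : ℂ :=
  z.1 * (starRingEnd ℂ) w.1 + z.2 * (starRingEnd ℂ) w.2

/-- the matrix `A = diag (λ, 1)` -/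
noncomputable def Amat (l : ℝ) : ℂ × ℂ →L[ℂ] ℂ × ℂ :=
  ((l : ℂ) • ContinuousLinearMap.fst ℂ ℂ ℂ).prod (ContinuousLinearMap.snd ℂ ℂ ℂ)

/-- `e^{tA} = diag (e^{λ t}, e^t)` -/
noncomputable def expA (l t : ℝ) (z : ℂ × ℂ) : ℂ × ℂ :=
  ((Real.exp (l * t) : ℂ) * z.1, (Real.exp t : ℂ) * z.2)

/-- the class `𝒩_A` -/
def NA (l : ℝ) : Set (ℂ × ℂ → ℂ × ℂ) :=
  {h | DifferentiableOn ℂ h B2 ∧ h 0 = 0 ∧ fderiv ℂ h 0 = Amat l ∧
    ∀ z ∈ B2, z ≠ 0 → 0 < (ip (h z) z).re}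

/-- Herglotz vector fields `h(z,t) = A z + ⋯` -/
def IsHerglotz (l : ℝ) (h : ℂ × ℂ → ℝ → ℂ × ℂ) : Prop :=
  (∀ᵐ t ∂(volume.restrict (Ici (0 : ℝ))), (fun z => h z t) ∈ NA l) ∧
    ∀ z ∈ B2, Measurable (fun t : Ici (0 : ℝ) => h z t)

/-- `v` is the solution of `∂ₜ v = -h(v, t)`, `v(z, 0) = z` on the ball (locally absolutely
continuous solutions, written as solutions of the integral equation) -/
def IsSol (h v : ℂ × ℂ → ℝ → ℂ × ℂ) : Prop :=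
  ∀ z ∈ B2, ∀ t, 0 ≤ t → v z t ∈ B2 ∧ IntervalIntegrable (fun τ => h (v z τ) τ) volume 0 t ∧
    v z t = z - ∫ τ in (0 : ℝ)..t, h (v z τ) τ

/-- the class `S⁰_A` of the normalized maps with `A`-parametric representation -/
def S0A (l : ℝ) : Set (ℂ × ℂ → ℂ × ℂ) :=
  {f | DifferentiableOn ℂ f B2 ∧ f 0 = 0 ∧ fderiv ℂ f 0 = ContinuousLinearMap.id ℂ (ℂ × ℂ) ∧
    ∃ h v : ℂ × ℂ → ℝ → ℂ × ℂ, IsHerglotz l h ∧ IsSol h v ∧
      TendstoLocallyUniformlyOn (fun (t : ℝ) z => expA l t (v z t)) f atTop B2}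

/-- `‖z‖²` -/
noncomputable def Nr (z : ℂ × ℂ) : ℝ := ‖z.1‖ ^ 2 + ‖z.2‖ ^ 2

lemma mem_B2 {z : ℂ × ℂ} : z ∈ B2 ↔ Nr z < 1 := Iff.rfl

lemma contDiff_Nr : ContDiff ℝ 1 Nr := by
  unfold Nr
  exact (contDiff_fst.norm_sq ℝ).add (contDiff_snd.norm_sq ℝ)

lemma isOpen_B2 : IsOpen B2 := isOpen_lt contDiff_Nr.continuous continuous_const

lemma zero_mem_B2 : (0 : ℂ × ℂ) ∈ B2 := by simp [B2]

lemma Nr_nonneg (z : ℂ × ℂ) : 0 ≤ Nr z := by unfold Nr; positivity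

lemma ip_re (z w : ℂ × ℂ) :
    (ip z w).re = z.1.re * w.1.re + z.1.im * w.1.im + (z.2.re * w.2.re + z.2.im * w.2.im) := by
  simp [ip, Complex.add_re, Complex.mul_re]

/-- the derivative of `‖φ‖²` along a curve -/
lemma hasDerivAt_Nr {φ : ℝ → ℂ × ℂ} {φ' : ℂ × ℂ} {t : ℝ} (h : HasDerivAt φ φ' t) :
    HasDerivAt (fun τ => Nr (φ τ)) (2 * (ip φ' (φ t)).re) t := by
  have h1 : HasDerivAt (fun τ => (φ τ).1) φ'.1 t := by
    have := (ContinuousLinearMap.fst ℝ ℂ ℂ).hasFDerivAt.comp_hasDerivAt t h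
    exact this
  have h2 : HasDerivAt (fun τ => (φ τ).2) φ'.2 t := by
    have := (ContinuousLinearMap.snd ℝ ℂ ℂ).hasFDerivAt.comp_hasDerivAt t h
    exact this
  have h3 := h1.norm_sq.add h2.norm_sq
  have h4 : HasDerivAt (fun τ => Nr (φ τ)) _ t := h3
  refine h4.congr_deriv ?_
  rw [ip_re, Complex.inner, Complex.inner]
  simp [Complex.mul_re]
  ring

end Pool.Agent.R231.SP
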