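import Mathlib
import Pool.Agent.R231.SP.Defs
import Pool.Agent.Helper197.Ode

set_option autoImplicit false

open Filter Topology Set Metric MeasureTheory

namespace Pool.Agent.R231.SP

/-- Global forward trajectories of `-h` in the ball, for a smooth field `h` with
`Re ⟨h(z), z⟩ ≥ 0`. -/
theorem flow_exists {h : ℂ × ℂ → ℂ × ℂ} (hC : ∀ z ∈ B2, ContDiffAt ℝ 1 h z)
    (hpos : ∀ z ∈ B2, 0 ≤ (ip (h z) z).re) {z₀ : ℂ × ℂ} (hz₀ : z₀ ∈ B2) :
    ∃ φ : ℝ → ℂ × ℂ, φ 0 = z₀ ∧
      ∀ t, 0 ≤ t → Nr (φ t) ≤ Nr z₀ ∧ HasDerivAt φ (-(h (φ t))) t := by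
  have hn0 : Nr z₀ < 1 := hz₀
  set c : ℝ := (1 + Nr z₀) / 2 with hc
  have hc1 : c < 1 := by rw [hc]; linarith
  have hc0 : Nr z₀ < c := by rw [hc]; linarith
  set χ : ℂ × ℂ → ℝ := fun z => Real.smoothTransition ((c - Nr z) / (c - Nr z₀)) with hχ
  have hχC : ContDiff ℝ 1 χ := by
    apply Real.smoothTransition.contDiff.comp
    exact (contDiff_const.sub contDiff_Nr).div_const _
  have hχ1 : ∀ z, Nr z ≤ Nr z₀ → χ z = 1 := by
    intro z hz
    apply Real.smoothTransition.one_of_one_le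
    rw [one_le_div (by linarith)]
    linarith
  have hχ0 : ∀ z, c ≤ Nr z → χ z = 0 := by
    intro z hz
    apply Real.smoothTransition.zero_of_nonpos
    apply div_nonpos_of_nonpos_of_nonneg <;> linarith
  have hχn : ∀ z, 0 ≤ χ z := fun z => Real.smoothTransition.nonneg _
  set v : ℂ × ℂ → ℂ × ℂ := fun z => -(χ z • h z) with hv
  have hvC : ContDiff ℝ 1 v := by
    rw [contDiff_iff_contDiffAt]
    intro z
    rcases lt_or_ge (Nr z) 1 with h1 | h1
    · exact (hχC.contDiffAt.smul (hC z h1)).neg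
    · have h2 : c < Nr z := lt_of_lt_of_le hc1 h1
      have h3 : v =ᶠ[𝓝 z] fun _ => 0 := by
        have : ∀ᶠ w in 𝓝 z, c < Nr w :=
          contDiff_Nr.continuous.continuousAt.eventually_const_lt h2
        filter_upwards [this] with w hw
        simp only [hv]
        rw [hχ0 w hw.le, zero_smul, neg_zero]
      exact contDiffAt_const.congr_of_eventuallyEq h3
  have hvs : HasCompactSupport v := by
    apply HasCompactSupport.intro (K := {z : ℂ × ℂ | Nr z ≤ c})
    · apply Metric.isCompact_of_isClosed_isBounded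
      · exact isClosed_le contDiff_Nr.continuous continuous_const
      · rw [Metric.isBounded_iff_subset_closedBall 0]
        refine ⟨1, fun z hz => ?_⟩
        have hz' : ‖z.1‖ ^ 2 + ‖z.2‖ ^ 2 ≤ c := hz
        rw [mem_closedBall_zero_iff, Prod.norm_def, max_le_iff]
        constructor
        · nlinarith [norm_nonneg z.1, norm_nonneg z.2, sq_nonneg ‖z.2‖]
        · nlinarith [norm_nonneg z.1, norm_nonneg z.2, sq_nonneg ‖z.1‖]
    · intro z hz
      have hz' : c < Nr z := lt_of_not_ge hz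
      simp only [hv]
      rw [hχ0 z hz'.le, zero_smul, neg_zero]
  obtain ⟨K, B, hK, hB⟩ := Pool.Agent.Helper197.SI.consts v hvC hvs
  obtain ⟨Φ, hΦ0, hΦ⟩ := Pool.Agent.Helper197.SI.exists_flow_aux v hK hB
  refine ⟨fun t => Φ t z₀, hΦ0 z₀, ?_⟩
  have hd : ∀ t, HasDerivAt (fun τ => Nr (Φ τ z₀)) (2 * (ip (v (Φ t z₀)) (Φ t z₀)).re) t :=
    fun t => hasDerivAt_Nr (hΦ z₀ t)
  have hle : ∀ z, (ip (v z) z).re ≤ 0 := by
    intro z
    have e : (ip (v z) z).re = -(χ z * (ip (h z) z).re) := by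
      simp only [hv, ip_re]
      simp
      ring
    rw [e]
    rcases lt_or_ge (Nr z) 1 with h1 | h1
    · have := mul_nonneg (hχn z) (hpos z h1)
      linarith
    · rw [hχ0 z (hc1.le.trans h1)]; simp
  have hanti : Antitone (fun τ => Nr (Φ τ z₀)) := by
    apply antitone_of_deriv_nonpos (fun t => (hd t).differentiableAt)
    intro t
    rw [(hd t).deriv]
    linarith [hle (Φ t z₀)]
  intro t ht
  have h1 : Nr (Φ t z₀) ≤ Nr z₀ := by
    have := hanti ht
    simpa [hΦ0] using this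
  refine ⟨h1, ?_⟩
  have h2 := hΦ z₀ t
  have h3 : v (Φ t z₀) = -(h (Φ t z₀)) := by
    simp only [hv]
    rw [hχ1 _ h1, one_smul]
  rw [h3] at h2
  exact h2

end Pool.Agent.R231.SP
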