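import Mathlib
import Pool.Agent.R231.SP.Flow

set_option autoImplicit false

open Filter Topology Set Metric MeasureTheory

namespace Pool.Agent.R231.SP

/-- data of the construction -/
structure Dat (l a s b : ℝ) : Prop where
  hl1 : 1 ≤ l
  hl2 : l < 2
  hs0 : 0 < s
  hs1 : s < 1
  h1 : a * s * (1 + s ^ 2) = 2
  h2 : l * s ^ 2 + (1 - s ^ 2) - a * s * (1 - s ^ 2) = 0
  hb : a = (2 - l) * b

section

variable (l a s b : ℝ) (e : ℂ)

/-- `X = z₁ + b z₂²` -/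
noncomputable def XX (z : ℂ × ℂ) : ℂ := z.1 + (b : ℂ) * z.2 ^ 2

/-- coefficients of the perturbation -/
noncomputable def c1 : ℝ := (1 - s ^ 2) ^ 2 / l
noncomputable def c2 : ℝ := (1 - s ^ 2) * (s + (1 - s ^ 2) * b)
noncomputable def c3 : ℝ := (s + (1 - s ^ 2) * b) ^ 2 / (4 - l)

/-- the perturbation -/
noncomputable def uu (z : ℂ × ℂ) : ℂ :=
  -(c1 l s : ℂ) * XX b z ^ 2 + (c2 s b : ℂ) * XX b z * z.2 ^ 2 - (c3 l s b : ℂ) * z.2 ^ 4

noncomputable def uX (z : ℂ × ℂ) : ℂ := -2 * (c1 l s : ℂ) * XX b z + (c2 s b : ℂ) * z.2 ^ 2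

noncomputable def uY (z : ℂ × ℂ) : ℂ :=
  2 * (c2 s b : ℂ) * XX b z * z.2 - 4 * (c3 l s b : ℂ) * z.2 ^ 3

/-- the polynomial vanishing on the contact circle -/
noncomputable def qq (z : ℂ × ℂ) : ℂ := (s : ℂ) * z.2 ^ 2 - (1 - (s : ℂ) ^ 2) * z.1

/-- the perturbed generators -/
noncomputable def hh (z : ℂ × ℂ) : ℂ × ℂ :=
  ((l : ℂ) * z.1 - (a : ℂ) * z.2 ^ 2 + e * qq s z ^ 2 / (1 + e * uX l s b z), z.2)

/-- the perturbed maps -/
noncomputable def FF (z : ℂ × ℂ) : ℂ × ℂ := (XX b z + e * uu l s b z, z.2)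

end

variable {l a s b : ℝ} {e : ℂ}

lemma Dat.a_gt (D : Dat l a s b) : 1 < a := by
  have h := D.h1
  have h0 := D.hs0
  have h1 := D.hs1
  by_contra hc
  push Not at hc
  have h3 : s * (1 + s ^ 2) < 2 := by nlinarith
  have h4 : 0 < s * (1 + s ^ 2) := by positivity
  nlinarith

lemma Dat.b_pos (D : Dat l a s b) : 0 < b := by
  have h := D.hb
  have h2 := D.hl2
  have h3 := D.a_gt
  by_contra hc
  push Not at hc
  nlinarith

lemma lie_identity (D : Dat l a s b) (z : ℂ × ℂ) :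
    (l : ℂ) * XX b z * uX l s b z + z.2 * uY l s b z + qq s z ^ 2 = (l : ℂ) * uu l s b z := by
  have hl0 : (l : ℂ) ≠ 0 := by
    have := D.hl1
    exact_mod_cast (by linarith : l ≠ 0)
  have hl4 : (4 - l : ℂ) ≠ 0 := by
    have := D.hl2
    have h : (4 - l : ℝ) ≠ 0 := by linarith
    exact_mod_cast h
  unfold uX uY qq uu c1 c2 c3 XX
  push_cast
  field_simp
  ring

lemma norm_XX_le (D : Dat l a s b) {z : ℂ × ℂ} (hz : z ∈ B2) : ‖XX b z‖ ≤ 1 + b := by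
  have hb := D.b_pos
  have h : ‖z.1‖ ^ 2 + ‖z.2‖ ^ 2 < 1 := hz
  have h1 : ‖z.1‖ ≤ 1 := by nlinarith [norm_nonneg z.1, sq_nonneg ‖z.2‖]
  have h2 : ‖z.2‖ ^ 2 ≤ 1 := by nlinarith [sq_nonneg ‖z.1‖]
  unfold XX
  calc ‖z.1 + (b : ℂ) * z.2 ^ 2‖ ≤ ‖z.1‖ + ‖(b : ℂ) * z.2 ^ 2‖ := norm_add_le _ _
    _ = ‖z.1‖ + b * ‖z.2‖ ^ 2 := by
        rw [norm_mul, norm_pow, Complex.norm_real, Real.norm_of_nonneg hb.le]
    _ ≤ 1 + b * 1 := by gcongr
    _ = 1 + b := by ring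

lemma c1_bd (D : Dat l a s b) : 0 < c1 l s ∧ c1 l s ≤ 1 := by
  have h0 := D.hs0
  have h1 := D.hs1
  have hl := D.hl1
  have h3 : 0 < 1 - s ^ 2 := by nlinarith
  have h4 : (1 - s ^ 2) ^ 2 ≤ 1 := pow_le_one₀ h3.le (by nlinarith)
  unfold c1
  constructor
  · positivity
  · rw [div_le_one (by linarith)]
    linarith

lemma beta_bd (D : Dat l a s b) : 0 < s + (1 - s ^ 2) * b ∧ s + (1 - s ^ 2) * b ≤ 1 + b := by
  have h0 := D.hs0
  have h1 := D.hs1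
  have hb := D.b_pos
  have h3 : 0 < 1 - s ^ 2 := by nlinarith
  have h4 : 1 - s ^ 2 ≤ 1 := by nlinarith
  constructor
  · positivity
  · have : (1 - s ^ 2) * b ≤ 1 * b := by gcongr
    linarith

lemma c2_bd (D : Dat l a s b) : 0 < c2 s b ∧ c2 s b ≤ 1 + b := by
  have h0 := D.hs0
  have h1 := D.hs1
  have hb := D.b_pos
  have h3 : 0 < 1 - s ^ 2 := by nlinarith
  have h4 : 1 - s ^ 2 ≤ 1 := by nlinarith
  obtain ⟨h5, h6⟩ := beta_bd D
  unfold c2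
  constructor
  · positivity
  · calc (1 - s ^ 2) * (s + (1 - s ^ 2) * b) ≤ 1 * (1 + b) := by gcongr
      _ = 1 + b := one_mul _

lemma c3_bd (D : Dat l a s b) : 0 < c3 l s b ∧ c3 l s b ≤ (1 + b) ^ 2 := by
  obtain ⟨h5, h6⟩ := beta_bd D
  have hl := D.hl2
  unfold c3
  have h7 : 0 < 4 - l := by linarith
  constructor
  · positivity
  · rw [div_le_iff₀ h7]
    have h8 : (s + (1 - s ^ 2) * b) ^ 2 ≤ (1 + b) ^ 2 := by gcongr
    nlinarith [sq_nonneg (1 + b)]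

lemma norm_ofReal' {x : ℝ} (hx : 0 ≤ x) : ‖(x : ℂ)‖ = x := by
  rw [Complex.norm_real, Real.norm_of_nonneg hx]

lemma norm_uX_le (D : Dat l a s b) {z : ℂ × ℂ} (hz : z ∈ B2) : ‖uX l s b z‖ ≤ 3 * (1 + b) := by
  have hb := D.b_pos
  have hX := norm_XX_le D hz
  obtain ⟨h1, h2⟩ := c1_bd D
  obtain ⟨h3, h4⟩ := c2_bd D
  have h : ‖z.1‖ ^ 2 + ‖z.2‖ ^ 2 < 1 := hz
  have hz2 : ‖z.2‖ ^ 2 ≤ 1 := by nlinarith [sq_nonneg ‖z.1‖]
  unfold uX
  calc ‖-2 * (c1 l s : ℂ) * XX b z + (c2 s b : ℂ) * z.2 ^ 2‖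
      ≤ ‖-2 * (c1 l s : ℂ) * XX b z‖ + ‖(c2 s b : ℂ) * z.2 ^ 2‖ := norm_add_le _ _
    _ = 2 * c1 l s * ‖XX b z‖ + c2 s b * ‖z.2‖ ^ 2 := by
        simp only [norm_mul, norm_pow, norm_neg, norm_ofReal' h1.le, norm_ofReal' h3.le]
        norm_num
    _ ≤ 2 * 1 * (1 + b) + (1 + b) * 1 := by gcongr
    _ = 3 * (1 + b) := by ring

/-- the size condition on the parameter -/
def Small (b : ℝ) (e : ℂ) : Prop := ‖e‖ ≤ 1 / (16 * (1 + b) ^ 2)

lemma Small.norm_le (D : Dat l a s b) (he : Small b e) : ‖e‖ ≤ 1 / 16 := by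
  have hb := D.b_pos
  refine le_trans he ?_
  apply one_div_le_one_div_of_le (by norm_num)
  nlinarith

lemma Small.mul_le (D : Dat l a s b) (he : Small b e) : ‖e‖ * (1 + b) ^ 2 ≤ 1 / 16 := by
  have hb := D.b_pos
  unfold Small at he
  rw [le_div_iff₀ (by positivity)] at he
  linarith

lemma Small.mul_le' (D : Dat l a s b) (he : Small b e) : ‖e‖ * (1 + b) ≤ 1 / 16 := by
  have hb := D.b_pos
  have h1 := Small.mul_le D he
  have h2 : ‖e‖ * (1 + b) ≤ ‖e‖ * (1 + b) ^ 2 := by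
    apply mul_le_mul_of_nonneg_left _ (norm_nonneg _)
    nlinarith
  linarith

lemma den_bd (D : Dat l a s b) (he : Small b e) {z : ℂ × ℂ} (hz : z ∈ B2) :
    1 / 2 ≤ ‖1 + e * uX l s b z‖ := by
  have h1 := norm_uX_le D hz
  have h2 := Small.mul_le' D he
  have h3 : ‖e * uX l s b z‖ ≤ 1 / 2 := by
    rw [norm_mul]
    calc ‖e‖ * ‖uX l s b z‖ ≤ ‖e‖ * (3 * (1 + b)) := by gcongr
      _ ≤ 1 / 2 := by linarith
  have h4 : ‖(1 : ℂ)‖ - ‖-(e * uX l s b z)‖ ≤ ‖1 - -(e * uX l s b z)‖ := norm_sub_norm_le _ _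
  rw [norm_one, norm_neg, sub_neg_eq_add] at h4
  linarith

lemma den_ne (D : Dat l a s b) (he : Small b e) {z : ℂ × ℂ} (hz : z ∈ B2) :
    1 + e * uX l s b z ≠ 0 := by
  intro h
  have := den_bd D he hz
  rw [h, norm_zero] at this
  linarith

lemma hh_contDiffAtC (D : Dat l a s b) (he : Small b e) {z : ℂ × ℂ} (hz : z ∈ B2) :
    ContDiffAt ℂ 1 (hh l a s b e) z := by
  unfold hh
  apply ContDiffAt.prodMk
  · apply ContDiffAt.add
    · fun_prop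
    · apply ContDiffAt.div
      · unfold qq; fun_prop
      · unfold uX XX; fun_prop
      · exact den_ne D he hz
  · fun_prop

lemma hh_contDiffAt (D : Dat l a s b) (he : Small b e) {z : ℂ × ℂ} (hz : z ∈ B2) :
    ContDiffAt ℝ 1 (hh l a s b e) z := (hh_contDiffAtC D he hz).restrict_scalars ℝ

lemma hh_differentiableOn (D : Dat l a s b) (he : Small b e) :
    DifferentiableOn ℂ (hh l a s b e) B2 := fun _ hz =>
  ((hh_contDiffAtC D he hz).differentiableAt one_ne_zero).differentiableWithinAt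

/-- the main estimate -/
lemma hh_pos (D : Dat l a s b) (he : Small b e) {z : ℂ × ℂ} (hz : z ∈ B2) (hz0 : z ≠ 0) :
    0 < (ip (hh l a s b e z) z).re := by
  have hzz : ‖z.1‖ ^ 2 + ‖z.2‖ ^ 2 < 1 := hz
  set R : ℝ := (z.2 ^ 2 * (starRingEnd ℂ) z.1).re with hR
  have hRle : R ≤ ‖z.1‖ * ‖z.2‖ ^ 2 := by
    calc R ≤ ‖z.2 ^ 2 * (starRingEnd ℂ) z.1‖ := Complex.re_le_norm _
      _ = ‖z.1‖ * ‖z.2‖ ^ 2 := by rw [norm_mul, norm_pow, RCLike.norm_conj]; ring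
  obtain ⟨hk1, hk2⟩ := key_ineq D.hl1 D.hs0 D.hs1 D.h1 D.h2 (norm_nonneg z.1) (sq_nonneg ‖z.2‖) hzz
  have ha := D.a_gt
  have hs0 := D.hs0
  have hs1 := D.hs1
  -- the form `E`
  set E : ℝ := l * ‖z.1‖ ^ 2 + ‖z.2‖ ^ 2 - a * R with hE
  have hq : ‖qq s z‖ ^ 2 = (s * ‖z.2‖ ^ 2 - (1 - s ^ 2) * ‖z.1‖) ^ 2 +
      2 * s * (1 - s ^ 2) * (‖z.1‖ * ‖z.2‖ ^ 2 - R) := by
    have e1 : ‖qq s z‖ ^ 2 = s ^ 2 * (‖z.2‖ ^ 2) ^ 2 + (1 - s ^ 2) ^ 2 * ‖z.1‖ ^ 2 -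
        2 * s * (1 - s ^ 2) * R := by
      rw [← Complex.normSq_eq_norm_sq, ← Complex.normSq_eq_norm_sq, ← Complex.normSq_eq_norm_sq, hR]
      unfold qq
      simp only [Complex.normSq_apply, pow_two, Complex.mul_re, Complex.mul_im, Complex.sub_re,
        Complex.sub_im, Complex.ofReal_re, Complex.ofReal_im, Complex.one_re, Complex.one_im,
        Complex.conj_re, Complex.conj_im]
      ring
    rw [e1]; ring
  have hx0 : 0 < ‖z.1‖ ∨ 0 < ‖z.2‖ ^ 2 := by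
    by_contra hcon
    push Not at hcon
    apply hz0
    have h1 : z.1 = 0 := norm_le_zero_iff.1 hcon.1
    have h2 : z.2 = 0 := by
      have : ‖z.2‖ ^ 2 = 0 := le_antisymm hcon.2 (sq_nonneg _)
      exact norm_eq_zero.1 (pow_eq_zero_iff (two_ne_zero) |>.1 this)
    exact Prod.ext h1 h2
  have hE0 : 0 < E := by
    have h1 := hk2 hx0
    have h2 : a * R ≤ a * (‖z.1‖ * ‖z.2‖ ^ 2) := by gcongr
    rw [hE]; linarith
  have hqE : ‖qq s z‖ ^ 2 ≤ 4 * E := by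
    rw [hq, hE]
    have h1 : 2 * s * (1 - s ^ 2) ≤ 4 * a := by
      have : s * (1 - s ^ 2) ≤ 1 := by
        have h0 : 0 ≤ s * s ^ 2 := by positivity
        nlinarith
      linarith
    have h2 : 0 ≤ ‖z.1‖ * ‖z.2‖ ^ 2 - R := by linarith
    have h3 := mul_le_mul_of_nonneg_right h1 h2
    linarith
  have hmain : (ip (hh l a s b e z) z).re =
      E + (e * qq s z ^ 2 / (1 + e * uX l s b z) * (starRingEnd ℂ) z.1).re := by
    unfold ip hh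
    simp only
    have e1 : ((l : ℂ) * z.1 - (a : ℂ) * z.2 ^ 2 + e * qq s z ^ 2 / (1 + e * uX l s b z)) *
        (starRingEnd ℂ) z.1 + z.2 * (starRingEnd ℂ) z.2 =
        (l : ℂ) * (z.1 * (starRingEnd ℂ) z.1) + z.2 * (starRingEnd ℂ) z.2 -
        (a : ℂ) * (z.2 ^ 2 * (starRingEnd ℂ) z.1) +
        e * qq s z ^ 2 / (1 + e * uX l s b z) * (starRingEnd ℂ) z.1 := by ring
    rw [e1, Complex.add_re, Complex.sub_re, Complex.add_re, Complex.mul_conj, Complex.mul_conj,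
      Complex.re_ofReal_mul, Complex.re_ofReal_mul, Complex.ofReal_re, Complex.ofReal_re,
      Complex.normSq_eq_norm_sq, Complex.normSq_eq_norm_sq]
  have hpert : ‖e * qq s z ^ 2 / (1 + e * uX l s b z) * (starRingEnd ℂ) z.1‖ ≤ E / 2 := by
    rw [norm_mul, norm_div, norm_mul, norm_pow, RCLike.norm_conj]
    have hd := den_bd D he hz
    have hz1 : ‖z.1‖ ≤ 1 := by nlinarith [norm_nonneg z.1, sq_nonneg ‖z.2‖]
    have he' := Small.norm_le D he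
    have hnum : ‖e‖ * ‖qq s z‖ ^ 2 ≤ 1 / 16 * (4 * E) := by gcongr
    have h5 : ‖e‖ * ‖qq s z‖ ^ 2 / ‖1 + e * uX l s b z‖ ≤ E / 2 := by
      rw [div_le_iff₀ (by linarith)]
      nlinarith
    calc ‖e‖ * ‖qq s z‖ ^ 2 / ‖1 + e * uX l s b z‖ * ‖z.1‖ ≤ E / 2 * 1 := by gcongr
      _ = E / 2 := mul_one _
  rw [hmain]
  have := Complex.abs_re_le_norm (e * qq s z ^ 2 / (1 + e * uX l s b z) * (starRingEnd ℂ) z.1)
  have h6 := neg_le_of_abs_le (this.trans hpert)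
  linarith

lemma qq_zero : qq s 0 = 0 := by simp [qq]

lemma hasFDerivAt_snd_pow (n : ℕ) (hn : 2 ≤ n) :
    HasFDerivAt (fun z : ℂ × ℂ => z.2 ^ n) (0 : ℂ × ℂ →L[ℂ] ℂ) 0 := by
  have h2 : HasFDerivAt (fun z : ℂ × ℂ => z.2) (ContinuousLinearMap.snd ℂ ℂ ℂ) 0 :=
    (ContinuousLinearMap.snd ℂ ℂ ℂ).hasFDerivAt
  refine (h2.pow n).congr_fderiv ?_
  have : n - 1 ≠ 0 := by omega
  ext <;> simp [this]

lemma hasFDerivAt_sq_mul {p r : ℂ × ℂ → ℂ} (hp : DifferentiableAt ℂ p 0) (hp0 : p 0 = 0)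
    (hr : DifferentiableAt ℂ r 0) :
    HasFDerivAt (fun z : ℂ × ℂ => p z ^ 2 * r z) (0 : ℂ × ℂ →L[ℂ] ℂ) 0 := by
  have h1 := (hp.hasFDerivAt.pow 2).mul hr.hasFDerivAt
  refine h1.congr_fderiv ?_
  rw [hp0]
  ext <;> simp

lemma hh_fderiv (D : Dat l a s b) (he : Small b e) :
    fderiv ℂ (hh l a s b e) 0 = Amat l := by
  have hf : HasFDerivAt (fun z : ℂ × ℂ => (l : ℂ) * z.1) ((l : ℂ) • ContinuousLinearMap.fst ℂ ℂ ℂ) 0 :=
    ((ContinuousLinearMap.fst ℂ ℂ ℂ).hasFDerivAt).const_mul (l : ℂ)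
  have hs : HasFDerivAt (fun z : ℂ × ℂ => z.2) (ContinuousLinearMap.snd ℂ ℂ ℂ) 0 :=
    (ContinuousLinearMap.snd ℂ ℂ ℂ).hasFDerivAt
  have h2 := (hasFDerivAt_snd_pow 2 le_rfl).const_mul (a : ℂ)
  have hr : DifferentiableAt ℂ (fun z : ℂ × ℂ => e * (1 + e * uX l s b z)⁻¹) 0 := by
    have : ContDiffAt ℂ 1 (fun z : ℂ × ℂ => e * (1 + e * uX l s b z)⁻¹) 0 := by
      apply ContDiffAt.mul contDiffAt_const
      apply ContDiffAt.inv
      · unfold uX XX; fun_prop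
      · exact den_ne D he zero_mem_B2
    exact this.differentiableAt one_ne_zero
  have hq : DifferentiableAt ℂ (qq s) 0 := by unfold qq; fun_prop
  have h3 := hasFDerivAt_sq_mul hq qq_zero hr
  have h4 := ((hf.sub h2).add h3).prodMk hs
  have h5 : HasFDerivAt (hh l a s b e) (Amat l) 0 := by
    have h6 : hh l a s b e = fun z : ℂ × ℂ => ((l : ℂ) * z.1 - (a : ℂ) * z.2 ^ 2 +
        qq s z ^ 2 * (e * (1 + e * uX l s b z)⁻¹), z.2) := by
      funext z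
      unfold hh
      congr 1
      rw [div_eq_mul_inv]
      ring
    rw [h6]
    refine h4.congr_fderiv ?_
    unfold Amat
    ext <;> simp
  exact h5.fderiv

lemma hh_mem_NA (D : Dat l a s b) (he : Small b e) : hh l a s b e ∈ NA l := by
  refine ⟨hh_differentiableOn D he, ?_, hh_fderiv D he, fun z hz hz0 => hh_pos D he hz hz0⟩
  unfold hh
  simp [qq_zero]

lemma FF_differentiable : Differentiable ℂ (FF l s b e) := by
  unfold FF uu XX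
  fun_prop

lemma FF_zero : FF l s b e 0 = 0 := by
  simp [FF, uu, XX]

lemma FF_fderiv : fderiv ℂ (FF l s b e) 0 = ContinuousLinearMap.id ℂ (ℂ × ℂ) := by
  have hf : HasFDerivAt (fun z : ℂ × ℂ => z.1) (ContinuousLinearMap.fst ℂ ℂ ℂ) 0 :=
    (ContinuousLinearMap.fst ℂ ℂ ℂ).hasFDerivAt
  have hs : HasFDerivAt (fun z : ℂ × ℂ => z.2) (ContinuousLinearMap.snd ℂ ℂ ℂ) 0 :=
    (ContinuousLinearMap.snd ℂ ℂ ℂ).hasFDerivAt
  have hX : DifferentiableAt ℂ (XX b) 0 := by unfold XX; fun_prop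
  have hX0 : XX b 0 = 0 := by simp [XX]
  have hY : DifferentiableAt ℂ (fun z : ℂ × ℂ => z.2 ^ 2) 0 := by fun_prop
  have k1 := (hasFDerivAt_snd_pow 2 le_rfl).const_mul (b : ℂ)
  have k2 := hasFDerivAt_sq_mul hX hX0 (r := fun _ => -e * (c1 l s : ℂ)) (by fun_prop)
  have k3 := hasFDerivAt_sq_mul (p := fun z : ℂ × ℂ => z.2) (by fun_prop) rfl
    (r := fun z => e * (c2 s b : ℂ) * XX b z) (by unfold XX; fun_prop)
  have k4 := (hasFDerivAt_snd_pow 4 (by norm_num)).const_mul (-e * (c3 l s b : ℂ))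
  have h4 := ((((hf.add k1).add k2).add k3).add k4).prodMk hs
  have h5 : HasFDerivAt (FF l s b e) (ContinuousLinearMap.id ℂ (ℂ × ℂ)) 0 := by
    have h6 : FF l s b e = fun z : ℂ × ℂ => (z.1 + (b : ℂ) * z.2 ^ 2 +
        XX b z ^ 2 * (-e * (c1 l s : ℂ)) + z.2 ^ 2 * (e * (c2 s b : ℂ) * XX b z) +
        -e * (c3 l s b : ℂ) * z.2 ^ 4, z.2) := by
      funext z
      unfold FF uu
      congr 1
      rw [show XX b z + e * (-(c1 l s : ℂ) * XX b z ^ 2 + (c2 s b : ℂ) * XX b z * z.2 ^ 2 -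
        (c3 l s b : ℂ) * z.2 ^ 4) = (XX b z) + (XX b z ^ 2 * (-e * (c1 l s : ℂ)) +
        z.2 ^ 2 * (e * (c2 s b : ℂ) * XX b z) +
        -e * (c3 l s b : ℂ) * z.2 ^ 4) by ring]
      nth_rewrite 1 [XX]
      ring
    rw [h6]
    refine h4.congr_fderiv ?_
    ext <;> simp
  exact h5.fderiv

end Pool.Agent.R231.SP
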