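import Mathlib
import Pool.Agent.R231.SP.Pert

set_option autoImplicit false

open Filter Topology Set Metric MeasureTheory

namespace Pool.Agent.R231.SP

variable {l a s b : ℝ} {e : ℂ}

lemma hasDerivAt_fst' {φ : ℝ → ℂ × ℂ} {φ' : ℂ × ℂ} {t : ℝ} (h : HasDerivAt φ φ' t) :
    HasDerivAt (fun τ => (φ τ).1) φ'.1 t :=
  (ContinuousLinearMap.fst ℝ ℂ ℂ).hasFDerivAt.comp_hasDerivAt t h

lemma hasDerivAt_snd' {φ : ℝ → ℂ × ℂ} {φ' : ℂ × ℂ} {t : ℝ} (h : HasDerivAt φ φ' t) :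
    HasDerivAt (fun τ => (φ τ).2) φ'.2 t :=
  (ContinuousLinearMap.snd ℝ ℂ ℂ).hasFDerivAt.comp_hasDerivAt t h

/-- conservation laws along the flow -/
lemma flow_conserved (D : Dat l a s b) (he : Small b e) {z₀ : ℂ × ℂ} (hz₀ : z₀ ∈ B2)
    {φ : ℝ → ℂ × ℂ} (h0 : φ 0 = z₀)
    (hφ : ∀ t, 0 ≤ t → Nr (φ t) ≤ Nr z₀ ∧ HasDerivAt φ (-(hh l a s b e (φ t))) t) :
    ∀ t, 0 ≤ t → (φ t).2 = (Real.exp (-t) : ℂ) * z₀.2 ∧
      XX b (φ t) + e * uu l s b (φ t) = (Real.exp (-(l * t)) : ℂ) * (XX b z₀ + e * uu l s b z₀) := by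
  have hmem : ∀ t, 0 ≤ t → φ t ∈ B2 := fun t ht => (hφ t ht).1.trans_lt hz₀
  -- the two conserved quantities
  have hE : ∀ (c t : ℝ), HasDerivAt (fun τ : ℝ => (Real.exp (c * τ) : ℂ)) ((c * Real.exp (c * t) : ℝ) : ℂ) t := by
    intro c t
    have h1 : HasDerivAt (fun τ : ℝ => Real.exp (c * τ)) (c * Real.exp (c * t)) t := by
      have := ((hasDerivAt_id t).const_mul c).exp
      refine this.congr_deriv ?_
      simp
      ring
    exact h1.ofReal_comp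
  have hG2 : ∀ t, 0 ≤ t → HasDerivAt (fun τ : ℝ => (Real.exp (1 * τ) : ℂ) * (φ τ).2) 0 t := by
    intro t ht
    have h1 := (hE 1 t).mul (hasDerivAt_snd' (hφ t ht).2)
    refine h1.congr_deriv ?_
    simp only [hh, Prod.neg_mk]
    push_cast
    ring
  have hG1 : ∀ t, 0 ≤ t → HasDerivAt (fun τ : ℝ => (Real.exp (l * τ) : ℂ) *
      (XX b (φ τ) + e * uu l s b (φ τ))) 0 t := by
    intro t ht
    have d1 := hasDerivAt_fst' (hφ t ht).2
    have d2 := hasDerivAt_snd' (hφ t ht).2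
    have dX : HasDerivAt (fun τ => XX b (φ τ)) ((-(hh l a s b e (φ t))).1 +
        (b : ℂ) * (2 * (φ t).2 * (-(hh l a s b e (φ t))).2)) t := by
      have := d1.add ((d2.pow 2).const_mul (b : ℂ))
      have h' : HasDerivAt (fun τ => XX b (φ τ)) _ t := this
      refine h'.congr_deriv ?_
      norm_num
    have du : HasDerivAt (fun τ => uu l s b (φ τ)) (uX l s b (φ t) * ((-(hh l a s b e (φ t))).1 +
        (b : ℂ) * (2 * (φ t).2 * (-(hh l a s b e (φ t))).2)) +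
        uY l s b (φ t) * (-(hh l a s b e (φ t))).2) t := by
      have := (((dX.pow 2).const_mul (-(c1 l s : ℂ))).add
        ((dX.const_mul (c2 s b : ℂ)).mul (d2.pow 2))).sub ((d2.pow 4).const_mul (c3 l s b : ℂ))
      have h' : HasDerivAt (fun τ => uu l s b (φ τ)) _ t := this
      refine h'.congr_deriv ?_
      unfold uX uY
      norm_num
      ring
    have h1 := (hE l t).mul (dX.add (du.const_mul e))
    have h' : HasDerivAt (fun τ : ℝ => (Real.exp (l * τ) : ℂ) *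
      (XX b (φ τ) + e * uu l s b (φ τ))) _ t := h1
    refine h'.congr_deriv ?_
    have hne := den_ne D he (hmem t ht)
    have hid := lie_identity D (φ t)
    have hb : (a : ℂ) = (2 - l) * b := by
      have := D.hb
      exact_mod_cast this
    simp only [hh, Prod.neg_mk]
    have hdiv : (1 + e * uX l s b (φ t)) * (e * qq s (φ t) ^ 2 / (1 + e * uX l s b (φ t))) =
        e * qq s (φ t) ^ 2 := by field_simp
    have hXd : XX b (φ t) = (φ t).1 + (b : ℂ) * (φ t).2 ^ 2 := rfl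
    push_cast
    generalize e * qq s (φ t) ^ 2 / (1 + e * uX l s b (φ t)) = W at hdiv ⊢
    simp only [Pi.add_apply] at *
    rw [hb]
    linear_combination (-(Complex.exp (↑l * ↑t))) * hdiv - e * (Complex.exp (↑l * ↑t)) * hid +
      (Complex.exp (↑l * ↑t)) * (1 + e * uX l s b (φ t)) * l * hXd
  have hconst : ∀ (G : ℝ → ℂ), (∀ t, 0 ≤ t → HasDerivAt G 0 t) → ∀ t, 0 ≤ t → G t = G 0 := by
    intro G hG t ht
    have := (convex_Icc (0 : ℝ) t).norm_image_sub_le_of_norm_hasDerivWithin_le (f := G)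
      (f' := fun _ => 0) (C := 0) (fun x hx => (hG x hx.1).hasDerivWithinAt) (fun x _ => by simp)
      (left_mem_Icc.2 ht) (right_mem_Icc.2 ht)
    rw [zero_mul] at this
    exact sub_eq_zero.1 (norm_le_zero_iff.1 this)
  intro t ht
  constructor
  · have h1 := hconst _ hG2 t ht
    simp only [one_mul, Real.exp_zero, Complex.ofReal_one, h0] at h1
    rw [← h1, ← mul_assoc, ← Complex.ofReal_mul, ← Real.exp_add]
    simp
  · have h1 := hconst _ hG1 t ht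
    simp only [mul_zero, Real.exp_zero, Complex.ofReal_one, one_mul, h0] at h1
    rw [← h1, ← mul_assoc, ← Complex.ofReal_mul, ← Real.exp_add]
    simp

lemma uu_bound (D : Dat l a s b) {z : ℂ × ℂ} {x y : ℝ} (hx : ‖XX b z‖ ≤ x) (hy : ‖z.2‖ ^ 2 ≤ y) :
    ‖uu l s b z‖ ≤ ‖XX b z‖ * (x + (1 + b) * y) + (1 + b) ^ 2 * y ^ 2 := by
  have hb := D.b_pos
  obtain ⟨h1, h1'⟩ := c1_bd D
  obtain ⟨h2, h2'⟩ := c2_bd D
  obtain ⟨h3, h3'⟩ := c3_bd D
  have hX0 := norm_nonneg (XX b z)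
  have hy0 : 0 ≤ ‖z.2‖ ^ 2 := sq_nonneg _
  have e1 : uu l s b z = XX b z * (-(c1 l s : ℂ) * XX b z + (c2 s b : ℂ) * z.2 ^ 2) -
      (c3 l s b : ℂ) * (z.2 ^ 2) ^ 2 := by unfold uu; ring
  rw [e1]
  calc ‖XX b z * (-(c1 l s : ℂ) * XX b z + (c2 s b : ℂ) * z.2 ^ 2) -
      (c3 l s b : ℂ) * (z.2 ^ 2) ^ 2‖
      ≤ ‖XX b z‖ * (c1 l s * ‖XX b z‖ + c2 s b * ‖z.2‖ ^ 2) + c3 l s b * (‖z.2‖ ^ 2) ^ 2 := by
        refine (norm_sub_le _ _).trans ?_
        rw [norm_mul, norm_mul, norm_pow, norm_pow, norm_ofReal' h3.le]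
        gcongr
        refine (norm_add_le _ _).trans ?_
        rw [norm_mul, norm_mul, norm_neg, norm_pow, norm_ofReal' h1.le, norm_ofReal' h2.le]
    _ ≤ ‖XX b z‖ * (1 * x + (1 + b) * y) + (1 + b) ^ 2 * y ^ 2 := by gcongr
    _ = _ := by ring

lemma flow_asymp (D : Dat l a s b) (he : Small b e) {z₀ : ℂ × ℂ} (hz₀ : z₀ ∈ B2)
    {φ : ℝ → ℂ × ℂ} (h0 : φ 0 = z₀)
    (hφ : ∀ t, 0 ≤ t → Nr (φ t) ≤ Nr z₀ ∧ HasDerivAt φ (-(hh l a s b e (φ t))) t) {t : ℝ}
    (ht : 0 ≤ t) :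
    ‖(Real.exp (l * t) : ℂ) * (φ t).1 - (FF l s b e z₀).1‖ ≤
      (1 + b) * Real.exp (-((2 - l) * t)) ∧
    (Real.exp t : ℂ) * (φ t).2 = (FF l s b e z₀).2 := by
  have hb := D.b_pos
  have hl1 := D.hl1
  have hl2 := D.hl2
  obtain ⟨c2', c1'⟩ := flow_conserved D he hz₀ h0 hφ t ht
  have hzz : ‖z₀.1‖ ^ 2 + ‖z₀.2‖ ^ 2 < 1 := hz₀
  have hz2 : ‖z₀.2‖ ^ 2 ≤ 1 := by nlinarith [sq_nonneg ‖z₀.1‖]
  have hmemt : φ t ∈ B2 := (hφ t ht).1.trans_lt hz₀
  have heB2 := Small.mul_le D he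
  have heB := Small.mul_le' D he
  have he0 := norm_nonneg e
  set E1 : ℝ := Real.exp (-t) with hE1
  set El : ℝ := Real.exp (-(l * t)) with hEl
  have hE1p : 0 < E1 := Real.exp_pos _
  have hElp : 0 < El := Real.exp_pos _
  have hEl1 : El ≤ 1 := Real.exp_le_one_iff.2 (by nlinarith)
  have hE12 : E1 ^ 2 ≤ El := by
    rw [hE1, hEl, ← Real.exp_nat_mul]
    apply Real.exp_le_exp.2
    push_cast
    nlinarith
  -- size of the initial value
  have hP0 : ‖XX b z₀ + e * uu l s b z₀‖ ≤ 2 * (1 + b) := by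
    have hX := norm_XX_le D hz₀
    have hu := uu_bound D hX hz2
    have hu' : ‖uu l s b z₀‖ ≤ 3 * (1 + b) ^ 2 := by
      refine hu.trans ?_
      calc ‖XX b z₀‖ * (1 + b + (1 + b) * 1) + (1 + b) ^ 2 * 1 ^ 2
          ≤ (1 + b) * (1 + b + (1 + b) * 1) + (1 + b) ^ 2 * 1 ^ 2 := by gcongr
        _ = 3 * (1 + b) ^ 2 := by ring
    calc ‖XX b z₀ + e * uu l s b z₀‖ ≤ ‖XX b z₀‖ + ‖e‖ * ‖uu l s b z₀‖ := by
          refine (norm_add_le _ _).trans ?_
          rw [norm_mul]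
      _ ≤ (1 + b) + ‖e‖ * (3 * (1 + b) ^ 2) := by gcongr
      _ ≤ 2 * (1 + b) := by nlinarith
  have hP : ‖XX b (φ t) + e * uu l s b (φ t)‖ ≤ 2 * (1 + b) * El := by
    rw [c1', norm_mul, norm_ofReal' hElp.le]
    calc El * ‖XX b z₀ + e * uu l s b z₀‖ ≤ El * (2 * (1 + b)) := by gcongr
      _ = _ := by ring
  have hy : ‖(φ t).2‖ ^ 2 ≤ El := by
    rw [c2', norm_mul, mul_pow, norm_ofReal' hE1p.le]
    calc E1 ^ 2 * ‖z₀.2‖ ^ 2 ≤ El * 1 := by gcongr
      _ = El := mul_one _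
  have hy' : ‖(φ t).2‖ ^ 2 ≤ E1 ^ 2 := by
    rw [c2', norm_mul, mul_pow, norm_ofReal' hE1p.le]
    calc E1 ^ 2 * ‖z₀.2‖ ^ 2 ≤ E1 ^ 2 * 1 := by gcongr
      _ = E1 ^ 2 := mul_one _
  -- first estimate of `X`
  have hX1 := norm_XX_le D hmemt
  have hXs : ‖XX b (φ t)‖ ≤ 3 * (1 + b) * El := by
    have hu := uu_bound D hX1 hy
    have h1 : ‖XX b (φ t)‖ ≤ ‖XX b (φ t) + e * uu l s b (φ t)‖ + ‖e‖ * ‖uu l s b (φ t)‖ := by
      have := norm_sub_le (XX b (φ t) + e * uu l s b (φ t)) (e * uu l s b (φ t))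
      rw [add_sub_cancel_right, norm_mul] at this
      exact this
    have h2 : ‖e‖ * ‖uu l s b (φ t)‖ ≤ ‖XX b (φ t)‖ * (1 / 8) + 1 / 16 * El := by
      calc ‖e‖ * ‖uu l s b (φ t)‖
          ≤ ‖e‖ * (‖XX b (φ t)‖ * (1 + b + (1 + b) * El) + (1 + b) ^ 2 * El ^ 2) := by gcongr
        _ ≤ ‖e‖ * (‖XX b (φ t)‖ * (1 + b + (1 + b) * 1) + (1 + b) ^ 2 * El) := by
            have : El ^ 2 ≤ El := by nlinarith
            gcongr
        _ = ‖XX b (φ t)‖ * (2 * (‖e‖ * (1 + b))) + (‖e‖ * (1 + b) ^ 2) * El := by ring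
        _ ≤ ‖XX b (φ t)‖ * (2 * (1 / 16)) + 1 / 16 * El := by gcongr
        _ = _ := by ring
    nlinarith
  -- size of `u`
  have hus : ‖e‖ * ‖uu l s b (φ t)‖ ≤ El ^ 2 := by
    have hu := uu_bound D hXs hy
    calc ‖e‖ * ‖uu l s b (φ t)‖
        ≤ ‖e‖ * (‖XX b (φ t)‖ * (3 * (1 + b) * El + (1 + b) * El) + (1 + b) ^ 2 * El ^ 2) := by
          gcongr
      _ ≤ ‖e‖ * (3 * (1 + b) * El * (3 * (1 + b) * El + (1 + b) * El) + (1 + b) ^ 2 * El ^ 2) := by
          gcongr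
      _ = (‖e‖ * (1 + b) ^ 2) * (13 * El ^ 2) := by ring
      _ ≤ 1 / 16 * (13 * El ^ 2) := by gcongr
      _ ≤ El ^ 2 := by nlinarith [sq_nonneg El]
  have hEE : Real.exp (l * t) * El = 1 := by
    rw [hEl, ← Real.exp_add]; simp
  have hEE2 : Real.exp (l * t) * E1 ^ 2 = Real.exp (-((2 - l) * t)) := by
    rw [hE1, ← Real.exp_nat_mul, ← Real.exp_add]
    congr 1
    push_cast
    ring
  have hE3 : El ≤ Real.exp (-((2 - l) * t)) := by
    apply Real.exp_le_exp.2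
    nlinarith
  constructor
  · have e1 : (FF l s b e z₀).1 = (Real.exp (l * t) : ℂ) * (XX b (φ t) + e * uu l s b (φ t)) := by
      rw [c1', ← mul_assoc, ← Complex.ofReal_mul, hEE, Complex.ofReal_one, one_mul]
      rfl
    have e2 : (Real.exp (l * t) : ℂ) * (φ t).1 - (FF l s b e z₀).1 =
        -((Real.exp (l * t) : ℂ) * ((b : ℂ) * (φ t).2 ^ 2 + e * uu l s b (φ t))) := by
      rw [e1]
      unfold XX
      ring
    rw [e2, norm_neg, norm_mul, norm_ofReal' (Real.exp_pos _).le]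
    calc Real.exp (l * t) * ‖(b : ℂ) * (φ t).2 ^ 2 + e * uu l s b (φ t)‖
        ≤ Real.exp (l * t) * (b * E1 ^ 2 + El ^ 2) := by
          have : ‖(b : ℂ) * (φ t).2 ^ 2 + e * uu l s b (φ t)‖ ≤ b * E1 ^ 2 + El ^ 2 := by
            refine (norm_add_le _ _).trans ?_
            rw [norm_mul, norm_mul, norm_pow, norm_ofReal' hb.le]
            gcongr
          gcongr
      _ = b * (Real.exp (l * t) * E1 ^ 2) + (Real.exp (l * t) * El) * El := by ring
      _ = b * Real.exp (-((2 - l) * t)) + El := by rw [hEE, hEE2, one_mul]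
      _ ≤ b * Real.exp (-((2 - l) * t)) + Real.exp (-((2 - l) * t)) := by gcongr
      _ = _ := by ring
  · rw [c2', ← mul_assoc, ← Complex.ofReal_mul, ← Real.exp_add]
    simp [FF]

theorem FF_mem (D : Dat l a s b) (he : Small b e) : FF l s b e ∈ S0A l := by
  have hNA := hh_mem_NA D he
  refine ⟨FF_differentiable.differentiableOn, FF_zero, FF_fderiv, ?_⟩
  have hpos : ∀ z ∈ B2, 0 ≤ (ip (hh l a s b e z) z).re := by
    intro z hz
    by_cases h0 : z = 0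
    · rw [h0]; simp [ip]
    · exact (hh_pos D he hz h0).le
  have hex : ∀ z : ℂ × ℂ, ∃ φ : ℝ → ℂ × ℂ, z ∈ B2 → φ 0 = z ∧
      ∀ t, 0 ≤ t → Nr (φ t) ≤ Nr z ∧ HasDerivAt φ (-(hh l a s b e (φ t))) t := by
    intro z
    by_cases hz : z ∈ B2
    · obtain ⟨φ, h1, h2⟩ := flow_exists (fun w hw => hh_contDiffAt D he hw) hpos hz
      exact ⟨φ, fun _ => ⟨h1, h2⟩⟩
    · exact ⟨fun _ => 0, fun h => absurd h hz⟩
  choose v hv using hex
  refine ⟨fun z _ => hh l a s b e z, v, ⟨?_, ?_⟩, ?_, ?_⟩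
  · exact Filter.Eventually.of_forall fun _ => hNA
  · intro z _
    exact measurable_const
  · intro z hz t ht
    obtain ⟨h0, h1⟩ := hv z hz
    have hcont : ContinuousOn (fun τ => hh l a s b e (v z τ)) (uIcc 0 t) := by
      rw [uIcc_of_le ht]
      refine (hh_differentiableOn D he).continuousOn.comp
        (fun τ hτ => (h1 τ hτ.1).2.continuousAt.continuousWithinAt) ?_
      intro τ hτ
      exact (h1 τ hτ.1).1.trans_lt hz
    refine ⟨(h1 t ht).1.trans_lt hz, hcont.intervalIntegrable, ?_⟩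
    have h2 := intervalIntegral.integral_eq_sub_of_hasDerivAt (f := v z)
      (f' := fun τ => -(hh l a s b e (v z τ))) (a := 0) (b := t) (fun τ hτ => by
        rw [uIcc_of_le ht] at hτ
        exact (h1 τ hτ.1).2) hcont.neg.intervalIntegrable
    rw [intervalIntegral.integral_neg, h0] at h2
    have h3 : v z t = z + -(∫ τ in (0 : ℝ)..t, hh l a s b e (v z τ)) := by
      rw [h2]; abel
    rw [h3, sub_eq_add_neg]
  · apply TendstoUniformlyOn.tendstoLocallyUniformlyOn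
    rw [Metric.tendstoUniformlyOn_iff]
    intro δ hδ
    have hlim : Tendsto (fun t : ℝ => (1 + b) * Real.exp (-((2 - l) * t))) atTop (𝓝 ((1 + b) * 0)) := by
      apply Tendsto.const_mul
      apply Real.tendsto_exp_atBot.comp
      apply tendsto_neg_atTop_atBot.comp
      have := D.hl2
      exact tendsto_id.const_mul_atTop (by linarith)
    rw [mul_zero] at hlim
    filter_upwards [hlim.eventually (gt_mem_nhds hδ), eventually_ge_atTop 0] with t ht ht0 z hz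
    obtain ⟨h0, h1⟩ := hv z hz
    obtain ⟨k1, k2⟩ := flow_asymp D he hz h0 h1 ht0
    rw [dist_comm, dist_eq_norm, Prod.norm_def]
    refine max_lt (lt_of_le_of_lt k1 ht) ?_
    have : (expA l t (v z t) - FF l s b e z).2 = 0 := by
      show (Real.exp t : ℂ) * (v z t).2 - (FF l s b e z).2 = 0
      rw [k2, sub_self]
    rw [this, norm_zero]
    exact hδ

end Pool.Agent.R231.SP
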